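import Pool.Agent.Helper57.SS.Goals

/-!
# Project SS (MP_9a4587_an), packet EL
-/

set_option autoImplicit false

namespace Pool.Agent.Helper87.SS

open MeasureTheory Filter Topology Pool.Agent.Helper57.SS
open scoped ComplexConjugate

theorem e2_cont (p : ℤ × ℤ) : Continuous (e2 p) := by
  unfold e2
  exact ((fourier p.1).continuous.comp continuous_fst).mul
    ((fourier p.2).continuous.comp continuous_snd)

theorem norm_fourier (n : ℤ) (x : Ci) : ‖(fourier n x : ℂ)‖ = 1 := by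
  rw [fourier_apply]; exact Circle.norm_coe _

theorem norm_e2 (p : ℤ × ℤ) (z : Ci × Ci) : ‖e2 p z‖ = 1 := by
  unfold e2; rw [norm_mul, norm_fourier, norm_fourier, mul_one]

theorem e2_conj (p q : ℤ × ℤ) (z : Ci × Ci) : e2 p z * conj (e2 q z) = e2 (p - q) z := by
  unfold e2
  rw [map_mul, ← fourier_neg, ← fourier_neg, Prod.fst_sub, Prod.snd_sub, sub_eq_add_neg,
    sub_eq_add_neg, fourier_add, fourier_add]
  ring

theorem e2_zero (p : ℤ × ℤ) : e2 p 0 = 1 := by simp [e2]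

theorem e2_int (σ : Measure (Ci × Ci)) [IsFiniteMeasure σ] (p : ℤ × ℤ) :
    Integrable (e2 p) σ :=
  Integrable.of_bound (e2_cont p).measurable.aestronglyMeasurable 1
    (Eventually.of_forall fun z => (norm_e2 p z).le)

theorem quadC (σ : Measure (Ci × Ci)) [IsFiniteMeasure σ] (φ : ℤ × ℤ → ℝ)
    (hφ : ∀ p, ∫ z, e2 p z ∂σ = ((φ p : ℝ) : ℂ)) (p : ℕ → ℤ × ℤ) (N : ℕ) :
    ∫ z, ‖(N : ℂ)⁻¹ * ∑ k ∈ Finset.range N, e2 (p k) z‖ ^ 2 ∂σ =
      ∑ k ∈ Finset.range N, ∑ l ∈ Finset.range N, (N : ℝ)⁻¹ * (N : ℝ)⁻¹ * φ (p k - p l) := by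
  have h1 : ∀ z, ((‖(N : ℂ)⁻¹ * ∑ k ∈ Finset.range N, e2 (p k) z‖ ^ 2 : ℝ) : ℂ) =
      ∑ k ∈ Finset.range N, ∑ l ∈ Finset.range N,
        (N : ℂ)⁻¹ * (N : ℂ)⁻¹ * e2 (p k - p l) z := by
    intro z
    have h2 := Complex.mul_conj' ((N : ℂ)⁻¹ * ∑ k ∈ Finset.range N, e2 (p k) z)
    push_cast
    rw [← h2, map_mul, map_sum, map_inv₀, Complex.conj_natCast]
    have h3 : ∀ A B C : ℂ, A * B * (A * C) = A * A * (B * C) := fun A B C => by ring
    rw [h3, Finset.sum_mul_sum, Finset.mul_sum]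
    refine Finset.sum_congr rfl fun k _ => ?_
    rw [Finset.mul_sum]
    refine Finset.sum_congr rfl fun l _ => ?_
    rw [e2_conj]
  have h4 : ((∫ z, ‖(N : ℂ)⁻¹ * ∑ k ∈ Finset.range N, e2 (p k) z‖ ^ 2 ∂σ : ℝ) : ℂ) =
      ((∑ k ∈ Finset.range N, ∑ l ∈ Finset.range N,
        (N : ℝ)⁻¹ * (N : ℝ)⁻¹ * φ (p k - p l) : ℝ) : ℂ) := by
    rw [← integral_complex_ofReal]
    rw [integral_congr_ae (Eventually.of_forall h1)]
    rw [integral_finsetSum]
    · push_cast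
      refine Finset.sum_congr rfl fun k _ => ?_
      rw [integral_finsetSum]
      · refine Finset.sum_congr rfl fun l _ => ?_
        rw [integral_const_mul, hφ]
      · intro l _
        exact (e2_int σ _).const_mul _
    · intro k _
      exact integrable_finsetSum _ fun l _ => (e2_int σ _).const_mul _
  exact_mod_cast h4

section

variable {α : Type} [MeasurableSpace α] {μ : Measure α}

theorem L2_mul {u v : α → ℝ} (hu : MemLp u 2 μ) (hv : MemLp v 2 μ) :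
    Integrable (fun x => u x * v x) μ :=
  hu.integrable_mul hv

theorem quad {ι : Type} (s : Finset ι) (c : ι → ℝ) (u : ι → α → ℝ)
    (hu : ∀ i, MemLp (u i) 2 μ) :
    ∑ i ∈ s, ∑ j ∈ s, c i * c j * ∫ x, u i x * u j x ∂μ =
      ∫ x, (∑ i ∈ s, c i * u i x) ^ 2 ∂μ := by
  have h : ∀ x, (∑ i ∈ s, c i * u i x) ^ 2 =
      ∑ i ∈ s, ∑ j ∈ s, c i * c j * (u i x * u j x) := by
    intro x
    rw [sq, Finset.sum_mul_sum]
    refine Finset.sum_congr rfl fun i _ => Finset.sum_congr rfl fun j _ => ?_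
    ring
  simp_rw [h]
  rw [integral_finsetSum]
  · refine Finset.sum_congr rfl fun i _ => ?_
    rw [integral_finsetSum]
    · refine Finset.sum_congr rfl fun j _ => ?_
      rw [integral_const_mul]
    · intro j _
      exact (L2_mul (hu i) (hu j)).const_mul _
  · intro i _
    exact integrable_finsetSum _ fun j _ => (L2_mul (hu i) (hu j)).const_mul _

theorem corr (τ : ℤ × ℤ → α → α) (hm : ∀ p, MeasurePreserving (τ p) μ μ)
    (ha : ∀ p q x, τ (p + q) x = τ p (τ q x)) (G : α → ℝ) (hG : MemLp G 2 μ) (p q : ℤ × ℤ) :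
    ∫ x, G (τ p x) * G (τ q x) ∂μ = ∫ x, G (τ (p - q) x) * G x ∂μ := by
  have hGp : ∀ p, AEStronglyMeasurable (fun x => G (τ p x)) μ := fun p =>
    (hG.comp_measurePreserving (hm p)).1
  have h1 : ∫ x, (fun y => G (τ (p - q) y) * G y) (τ q x) ∂μ =
      ∫ x, G (τ (p - q) x) * G x ∂μ := by
    have h2 : AEStronglyMeasurable (fun y => G (τ (p - q) y) * G y) (Measure.map (τ q) μ) := by
      rw [(hm q).map_eq]
      exact (hGp _).mul hG.1
    rw [← integral_map (hm q).measurable.aemeasurable h2, (hm q).map_eq]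
  rw [← h1]
  refine integral_congr_ae (Eventually.of_forall fun x => ?_)
  show G (τ p x) * G (τ q x) = G (τ (p - q) (τ q x)) * G (τ q x)
  rw [← ha, sub_add_cancel]

theorem eL2 (h : α → ℝ) (hh : MemLp h 2 μ) :
    eLpNorm h 2 μ = ENNReal.ofReal (Real.sqrt (∫ x, h x ^ 2 ∂μ)) := by
  rw [MemLp.eLpNorm_eq_integral_rpow_norm (by norm_num) (by norm_num) hh]
  congr 1
  rw [Real.sqrt_eq_rpow]
  have h2 : (2 : ENNReal).toReal = 2 := by norm_num
  rw [h2]
  congr 1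
  · refine integral_congr_ae (Eventually.of_forall fun x => ?_)
    show ‖h x‖ ^ (2 : ℝ) = h x ^ 2
    rw [Real.norm_eq_abs, Real.rpow_two, sq_abs]
  · norm_num

end

theorem gEL : G_EL := by
  intro hHZ hZP hVN a b hW α _ μ _ U V hU hV hUV G hG
  -- the action
  obtain ⟨hU0, hUn, -, hUa, hUm, hUp, hUc⟩ := hZP α U
  obtain ⟨hV0, hVn, -, hVa, hVm, hVp, hVc⟩ := hZP α V
  have hcomm : ∀ m n x, zp V n (zp U m x) = zp U m (zp V n x) := by
    intro m n x
    have h1 : ∀ x, V (zp U m x) = zp U m (V x) := fun x => (hUc (⇑V) hUV m x).symm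
    exact hVc (zp U m) h1 n x
  obtain ⟨τ, hτ⟩ : ∃ τ : ℤ × ℤ → α → α, τ = fun p x => zp U p.1 (zp V p.2 x) := ⟨_, rfl⟩
  have hm : ∀ p, MeasurePreserving (τ p) μ μ := by
    intro p
    rw [hτ]
    exact (hUp μ hU.toMeasurePreserving p.1).comp (hVp μ hV p.2)
  have ha : ∀ p q x, τ (p + q) x = τ p (τ q x) := by
    intro p q x
    rw [hτ]
    show zp U (p.1 + q.1) (zp V (p.2 + q.2) x) = zp U p.1 (zp V p.2 (zp U q.1 (zp V q.2 x)))
    rw [hUa, hVa, hcomm]
  have h0 : ∀ x, τ 0 x = x := by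
    intro x
    rw [hτ]
    show zp U 0 (zp V 0 x) = x
    rw [hU0, hV0]
  -- centre
  obtain ⟨c, hc⟩ : ∃ c : ℝ, c = ∫ y, G y ∂μ := ⟨_, rfl⟩
  obtain ⟨G0, hG0⟩ : ∃ G0 : α → ℝ, G0 = fun x => G x - c := ⟨_, rfl⟩
  have hL : MemLp G0 2 μ := by
    rw [hG0]
    exact hG.sub (memLp_const c)
  have hGi : Integrable G μ := hG.integrable (by norm_num)
  have hI : ∫ x, G0 x ∂μ = 0 := by
    rw [hG0, integral_sub hGi (integrable_const c), ← hc]
    simp
  have hLp : ∀ p, MemLp (fun x => G0 (τ p x)) 2 μ := fun p => hL.comp_measurePreserving (hm p)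
  obtain ⟨φ, hφ⟩ : ∃ φ : ℤ × ℤ → ℝ, φ = fun p => ∫ x, G0 (τ p x) * G0 x ∂μ := ⟨_, rfl⟩
  have hcorr : ∀ p q, ∫ x, G0 (τ p x) * G0 (τ q x) ∂μ = φ (p - q) := by
    intro p q
    rw [hφ]
    exact corr τ hm ha G0 hL p q
  have heven : ∀ p, φ (-p) = φ p := by
    intro p
    have h1 := hcorr 0 p
    rw [zero_sub] at h1
    rw [← h1, hφ]
    refine integral_congr_ae (Eventually.of_forall fun x => ?_)
    show G0 (τ 0 x) * G0 (τ p x) = G0 (τ p x) * G0 x
    rw [h0, mul_comm]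
  have hpd : ∀ c : (ℤ × ℤ) →₀ ℝ, 0 ≤ c.sum fun p u => c.sum fun q v => u * v * φ (p - q) := by
    intro c
    have h1 := quad (μ := μ) c.support (fun p => c p) (fun p x => G0 (τ p x)) hLp
    have h2 : (c.sum fun p u => c.sum fun q v => u * v * φ (p - q)) =
        ∑ p ∈ c.support, ∑ q ∈ c.support, c p * c q * ∫ x, G0 (τ p x) * G0 (τ q x) ∂μ := by
      unfold Finsupp.sum
      refine Finset.sum_congr rfl fun p _ => Finset.sum_congr rfl fun q _ => ?_
      rw [hcorr]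
    rw [h2, h1]
    exact integral_nonneg fun x => sq_nonneg _
  obtain ⟨σ, hσ, hσφ⟩ := hHZ φ heven hpd
  -- the isometry
  have key : ∀ (p : ℕ → ℤ × ℤ) (N : ℕ),
      ∫ x, ((N : ℝ)⁻¹ * ∑ k ∈ Finset.range N, G0 (τ (p k) x)) ^ 2 ∂μ =
        ∫ z, ‖(N : ℂ)⁻¹ * ∑ k ∈ Finset.range N, e2 (p k) z‖ ^ 2 ∂σ := by
    intro p N
    rw [quadC σ φ hσφ p N]
    have h1 := quad (μ := μ) (Finset.range N) (fun _ => (N : ℝ)⁻¹) (fun k x => G0 (τ (p k) x))
      (fun k => hLp _)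
    have h2 : ∀ x, ∑ i ∈ Finset.range N, (N : ℝ)⁻¹ * G0 (τ (p i) x) =
        (N : ℝ)⁻¹ * ∑ k ∈ Finset.range N, G0 (τ (p k) x) := fun x => by rw [Finset.mul_sum]
    simp only [h2] at h1
    rw [← h1]
    refine Finset.sum_congr rfl fun k _ => Finset.sum_congr rfl fun l _ => ?_
    rw [hcorr]
  have hML : ∀ (p : ℕ → ℤ × ℤ) (N : ℕ),
      MemLp (fun x => (N : ℝ)⁻¹ * ∑ k ∈ Finset.range N, G0 (τ (p k) x)) 2 μ := by
    intro p N
    exact (memLp_finsetSum (Finset.range N) (fun k _ => hLp (p k))).const_mul _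
  -- the atom at zero
  have hat : σ {(0 : Ci × Ci)} = 0 := by
    have h1 := hVN α μ (⇑U) hU G0 hL
    rw [hI] at h1
    have h2 : ∀ n : ℕ, (eLpNorm (fun x => (n : ℝ)⁻¹ * ∑ m ∈ Finset.range n, G0 ((⇑U)^[m] x) - 0)
        2 μ).toReal ^ 2 =
        ∫ z, ‖(n : ℂ)⁻¹ * ∑ k ∈ Finset.range n, e2 ((k : ℤ), 0) z‖ ^ 2 ∂σ := by
      intro n
      have h3 : (fun x => (n : ℝ)⁻¹ * ∑ m ∈ Finset.range n, G0 ((⇑U)^[m] x) - 0) =
          fun x => (n : ℝ)⁻¹ * ∑ k ∈ Finset.range n, G0 (τ ((k : ℤ), 0) x) := by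
        funext x
        rw [sub_zero, hτ]
        congr 1
      rw [h3, eL2 _ (hML (fun k => ((k : ℤ), 0)) n), ENNReal.toReal_ofReal (Real.sqrt_nonneg _),
        Real.sq_sqrt (integral_nonneg fun x => sq_nonneg _), key (fun k => ((k : ℤ), 0)) n]
    have h4 : Tendsto (fun n : ℕ => (eLpNorm (fun x => (n : ℝ)⁻¹ *
        ∑ m ∈ Finset.range n, G0 ((⇑U)^[m] x) - 0) 2 μ).toReal ^ 2) atTop (𝓝 0) := by
      have h5 := ((ENNReal.tendsto_toReal ENNReal.zero_ne_top).comp h1).pow 2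
      simpa using h5
    have h6 : ∀ n : ℕ, 1 ≤ n → σ.real {(0 : Ci × Ci)} ≤ (eLpNorm (fun x => (n : ℝ)⁻¹ *
        ∑ m ∈ Finset.range n, G0 ((⇑U)^[m] x) - 0) 2 μ).toReal ^ 2 := by
      intro n hn
      rw [h2]
      have h7 : ∫ z in {(0 : Ci × Ci)}, ‖(n : ℂ)⁻¹ * ∑ k ∈ Finset.range n, e2 ((k : ℤ), 0) z‖ ^ 2
          ∂σ = σ.real {(0 : Ci × Ci)} := by
        rw [integral_singleton]
        simp only [e2_zero]
        have hn0 : (n : ℂ) ≠ 0 := by
          have : n ≠ 0 := by omega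
          exact_mod_cast this
        simp [hn0]
      rw [← h7]
      refine setIntegral_le_integral ?_ (Eventually.of_forall fun z => by positivity)
      refine Integrable.of_bound (C := 1) ?_ ?_
      · refine Continuous.aestronglyMeasurable ?_
        exact ((continuous_const.mul (continuous_finsetSum _ fun k _ => e2_cont _)).norm).pow 2
      · refine Eventually.of_forall fun z => ?_
        have h8 : ‖(n : ℂ)⁻¹ * ∑ k ∈ Finset.range n, e2 ((k : ℤ), 0) z‖ ≤ 1 := by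
          rw [norm_mul, norm_inv, Complex.norm_natCast]
          have h9 : ‖∑ k ∈ Finset.range n, e2 ((k : ℤ), 0) z‖ ≤ n := by
            refine (norm_sum_le _ _).trans ?_
            simp [norm_e2]
          have hn0 : (0 : ℝ) < n := by exact_mod_cast hn
          rw [inv_mul_le_iff₀ hn0]
          linarith
        rw [norm_pow, norm_norm]
        exact pow_le_one₀ (norm_nonneg _) h8
    have h10 : σ.real {(0 : Ci × Ci)} ≤ 0 :=
      ge_of_tendsto h4 (eventually_atTop.2 ⟨1, h6⟩)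
    have h11 : σ.real {(0 : Ci × Ci)} = 0 := le_antisymm h10 measureReal_nonneg
    exact (measureReal_eq_zero_iff).1 h11
  -- dominated convergence
  have hdc : Tendsto (fun N : ℕ => ∫ z, ‖(N : ℂ)⁻¹ * ∑ k ∈ Finset.range N,
      e2 ((a k : ℤ), (b k : ℤ)) z‖ ^ 2 ∂σ) atTop (𝓝 (∫ _z : Ci × Ci, (0 : ℝ) ∂σ)) := by
    refine tendsto_integral_of_dominated_convergence (fun _ => (1 : ℝ)) ?_ ?_ ?_ ?_
    · intro N
      refine Continuous.aestronglyMeasurable ?_
      exact ((continuous_const.mul (continuous_finsetSum _ fun k _ => e2_cont _)).norm).pow 2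
    · exact integrable_const _
    · intro N
      refine Eventually.of_forall fun z => ?_
      have h8 : ‖(N : ℂ)⁻¹ * ∑ k ∈ Finset.range N, e2 ((a k : ℤ), (b k : ℤ)) z‖ ≤ 1 := by
        rcases Nat.eq_zero_or_pos N with hN | hN
        · subst hN; simp
        rw [norm_mul, norm_inv, Complex.norm_natCast]
        have h9 : ‖∑ k ∈ Finset.range N, e2 ((a k : ℤ), (b k : ℤ)) z‖ ≤ N := by
          refine (norm_sum_le _ _).trans ?_
          simp [norm_e2]
        have hn0 : (0 : ℝ) < N := by exact_mod_cast hN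
        rw [inv_mul_le_iff₀ hn0]
        linarith
      rw [norm_pow, norm_norm]
      exact pow_le_one₀ (norm_nonneg _) h8
    · have h1 : ∀ᵐ z ∂σ, z ≠ 0 := by
        rw [ae_iff]
        simpa using hat
      filter_upwards [h1] with z hz
      have h2 := (hW z hz).norm.pow 2
      simpa using h2
  rw [integral_zero] at hdc
  -- conclusion
  have hfin : ∀ᶠ N : ℕ in atTop, eLpNorm (fun x => (N : ℝ)⁻¹ * ∑ k ∈ Finset.range N,
      G ((⇑U)^[a k] ((⇑V)^[b k] x)) - ∫ y, G y ∂μ) 2 μ =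
      ENNReal.ofReal (Real.sqrt (∫ z, ‖(N : ℂ)⁻¹ * ∑ k ∈ Finset.range N,
      e2 ((a k : ℤ), (b k : ℤ)) z‖ ^ 2 ∂σ)) := by
    filter_upwards [eventually_ge_atTop 1] with N hN
    have h3 : (fun x => (N : ℝ)⁻¹ * ∑ k ∈ Finset.range N,
        G ((⇑U)^[a k] ((⇑V)^[b k] x)) - ∫ y, G y ∂μ) =
        fun x => (N : ℝ)⁻¹ * ∑ k ∈ Finset.range N, G0 (τ ((a k : ℤ), (b k : ℤ)) x) := by
      funext x
      have h4 : ∀ k, G0 (τ ((a k : ℤ), (b k : ℤ)) x) =
          G ((⇑U)^[a k] ((⇑V)^[b k] x)) - c := by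
        intro k
        rw [hτ, hG0]
        show G (zp U (a k : ℤ) (zp V (b k : ℤ) x)) - c = _
        rw [hUn, hVn]
      simp only [h4]
      rw [Finset.sum_sub_distrib, Finset.sum_const, Finset.card_range, nsmul_eq_mul, ← hc]
      have hn0 : (N : ℝ) ≠ 0 := by
        have : N ≠ 0 := by omega
        exact_mod_cast this
      field_simp
    rw [h3, eL2 _ (hML (fun k => ((a k : ℤ), (b k : ℤ))) N), key (fun k => ((a k : ℤ), (b k : ℤ))) N]
  rw [tendsto_congr' hfin]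
  have h1 := (Real.continuous_sqrt.tendsto 0).comp hdc
  have h2 := (ENNReal.continuous_ofReal.tendsto _).comp h1
  rw [Real.sqrt_zero, ENNReal.ofReal_zero] at h2
  exact h2

end Pool.Agent.Helper87.SS
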